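import Pool.Agent.helper58.DC.Spec1

set_option autoImplicit false

namespace Pool.Agent.helper38.DC

open Pool.Agent.helper58.DC

theorem IS : IS_stmt := by
  classical
  rintro A _ S S' ⟨e, he, hl, hd⟩ d U
  have hst : ∀ (a : A) (z : S.Z), (S'.act a (e z) = e z ↔ S.act a z = z) := by
    intro a z
    rw [← he, e.apply_eq_iff_eq]
  constructor
  · unfold SSet.num
    rw [← finsum_comp_equiv e]
    refine finsum_congr fun z => ?_
    simp only [hd, hl, hst]
  · unfold SSet.fix
    rw [← finsum_comp_equiv e]
    refine finsum_congr fun z => ?_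
    simp only [hd, hl, hst]

end Pool.Agent.helper38.DC
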